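import Pool.Agent.N229.SC.Stm

/-!
Project SC, parts FN1, FN2, FN5: the conformal map and the functions `Q_i`.
-/

set_option autoImplicit false

open Set Filter Topology

namespace Pool.Agent.U395.SC

open Pool.Agent.N229.SC

/-- basic facts on a solution -/
structure Bas (P : Par) (X : ℝ) (h : W) : Prop where
  rho : 0 < P.ρ
  n0 : P.n ≠ 0
  n8 : (8000 : ℝ) ≤ P.n
  nh : ‖h‖ ≤ 2 * X
  nh' : ‖h‖ ≤ 6 / 10 ^ 4

theorem bas (hAB : S_AB) {P : Par} {X : ℝ} {h v : W} {y : ℕ → A} (hF : Full P X h v y) :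
    Bas P X h := by
  obtain ⟨-, -, -, -, -, -, hn8⟩ := hAB P hF.good
  have h1 := hF.sol.nh
  have h2 := hF.X_le
  refine ⟨by linarith [hF.good.rho], ?_, hn8, h1, ?_⟩
  · intro h0
    rw [h0] at hn8
    norm_num at hn8
  · norm_num at h2 ⊢
    linarith

theorem fF_pow {P : Par} {h : W} (hρ : P.ρ ≠ 0) (hn : P.n ≠ 0) (z : ℂ) :
    (fF P h z / P.ρ) ^ P.n = z ^ P.n * Complex.exp (evh (Phi P h) (z ^ P.n)) := by
  have h1 : (P.ρ : ℂ) ≠ 0 := by exact_mod_cast hρ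
  have h2 : (P.n : ℂ) ≠ 0 := by exact_mod_cast hn
  have h3 : fF P h z / P.ρ = z * Complex.exp (evh (Phi P h) (z ^ P.n) / P.n) := by
    unfold fF
    field_simp
  rw [h3, mul_pow, ← Complex.exp_nat_mul]
  congr 2
  field_simp

theorem rF_pow {P : Par} (hn : P.n ≠ 0) : rF P ^ P.n = Rad := by
  have h1 : (P.n : ℝ) ≠ 0 := by exact_mod_cast hn
  have h2 : 0 < Rad := by norm_num [Rad]
  unfold rF
  rw [← Real.rpow_natCast, ← Real.rpow_mul h2.le, inv_mul_cancel₀ h1, Real.rpow_one]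

theorem pow_mem {P : Par} (hn : P.n ≠ 0) {z : ℂ} (hz : z ∈ Metric.ball (0 : ℂ) (rF P)) :
    z ^ P.n ∈ Metric.ball (0 : ℂ) Rad := by
  rw [mem_ball_zero_iff] at hz ⊢
  rw [norm_pow, ← rF_pow hn]
  exact pow_lt_pow_left₀ hz (norm_nonneg z) hn

theorem pow_norm {P : Par} (hn : P.n ≠ 0) {z : ℂ} (hz : z ∈ Metric.ball (0 : ℂ) (rF P)) :
    ‖z ^ P.n‖ < Rad := by
  have := pow_mem hn hz
  rwa [mem_ball_zero_iff] at this

theorem diff_comp (hEH : S_EH) {P : Par} (hn : P.n ≠ 0) (a : W) :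
    DifferentiableOn ℂ (fun z => evh a (z ^ P.n)) (Metric.ball 0 (rF P)) := by
  obtain ⟨hd, -⟩ := hEH wW wA_le_wW
  exact (hd a).comp (fun z _ => (differentiableAt_pow P.n).differentiableWithinAt)
    fun z hz => pow_mem hn hz

theorem fF_diff (hEH : S_EH) {P : Par} (hn : P.n ≠ 0) (h : W) :
    DifferentiableOn ℂ (fF P h) (Metric.ball 0 (rF P)) := by
  unfold fF
  exact ((differentiableOn_const _).mul differentiableOn_id).mul
    ((diff_comp hEH hn (Phi P h)).div_const _).cexp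

/-- the constants -/
noncomputable def kk (P : Par) : ℕ → ℝ
  | 0 => 2 / P.ρ * P.b 0 - P.b 1
  | i + 1 => P.b i

theorem QF_eq (P : Par) (X : ℝ) (h v : W) (y : ℕ → A) (i : ℕ) :
    QF P X h v y i = fun z => (kk P i : ℂ) + ((X * P.a i : ℝ) : ℂ) * (fF P h z / P.ρ) ^ P.n +
      evh (qq P h v y i) (z ^ P.n) := by
  rcases i with _ | i
  · rfl
  · rfl

theorem proof_FN2 (hA2 : S_A2) (hAB : S_AB) (hB2 : S_B2) (hEH : S_EH) : S_FN2 := by
  intro P X h v y hF
  have hb := bas hAB hF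
  constructor
  · intro i
    rw [QF_eq]
    exact (((((fF_diff hEH hb.n0 h).div_const _).pow P.n).const_mul _).const_add _).add
      (diff_comp hEH hb.n0 _)
  · obtain ⟨C, hC⟩ := hF.bd
    have hsol := hF.sol
    have hDom : Dom X h v y := ⟨hsol.hc, hsol.hv, hsol.hy, hsol.nh, hsol.nv, hsol.ny⟩
    obtain ⟨-, -, -, -, hq⟩ := hB2 P hF.good X h v y hF.X_pos hF.X_le hDom
    have hq0 := (hq 5 5 (by norm_num) le_rfl (by norm_num) le_rfl hsol.nv hsol.ny).1
    have hC0 : 0 ≤ C := (abs_nonneg _).trans (hC 0).1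
    have hX := hF.X_pos
    have hqi : ∀ i, ‖qq P h v y i‖ ≤ 5 * X ^ 2 := by
      intro i
      rcases i with _ | i
      · nlinarith [sq_nonneg X]
      · obtain ⟨-, -, -, -, -, ⟨-, hr, -⟩⟩ := hA2
        have h1 : ‖qq P h v y (i + 1)‖ ≤ 5 / 8 * ‖y i‖ := hr P.n (i + 1) (y i)
        have h2 := hsol.ny i
        nlinarith [sq_nonneg X]
    have hkk : ∀ i, |kk P i| ≤ 2 / P.ρ * C + C := by
      intro i
      have hρ := hb.rho
      rcases i with _ | i
      · have h1 : |2 / P.ρ * P.b 0 - P.b 1| ≤ |2 / P.ρ * P.b 0| + |P.b 1| := abs_sub _ _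
        rw [abs_mul, abs_of_pos (by positivity : 0 < 2 / P.ρ)] at h1
        have h2 := mul_le_mul_of_nonneg_left (hC 0).2 (by positivity : 0 ≤ 2 / P.ρ)
        have h3 := (hC 1).2
        exact h1.trans (by linarith)
      · have h1 := (hC i).2
        have h2 : 0 ≤ 2 / P.ρ * C := by positivity
        show |P.b i| ≤ _
        linarith
    obtain ⟨-, hn, -⟩ := hEH wW wA_le_wW
    refine ⟨(2 / P.ρ * C + C) + X * C * (Rad * Real.exp ‖Phi P h‖) + 5 * X ^ 2, fun i z hz => ?_⟩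
    rw [QF_eq]
    have ht := pow_norm hb.n0 hz
    simp only
    rw [fF_pow hb.rho.ne' hb.n0]
    have h1 : ‖(kk P i : ℂ)‖ ≤ 2 / P.ρ * C + C := by
      rw [Complex.norm_real]
      exact hkk i
    have h2 : ‖evh (qq P h v y i) (z ^ P.n)‖ ≤ 5 * X ^ 2 := (hn _ _ ht.le).trans (hqi i)
    have h3 : ‖((X * P.a i : ℝ) : ℂ) * (z ^ P.n * Complex.exp (evh (Phi P h) (z ^ P.n)))‖ ≤
        X * C * (Rad * Real.exp ‖Phi P h‖) := by
      rw [norm_mul, norm_mul, Complex.norm_real, Complex.norm_exp, Real.norm_eq_abs, abs_mul,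
        abs_of_pos hX]
      have h4 : (evh (Phi P h) (z ^ P.n)).re ≤ ‖Phi P h‖ :=
        (Complex.re_le_norm _).trans (hn _ _ ht.le)
      have h5 := Real.exp_le_exp.2 h4
      have h6 : (0 : ℝ) ≤ Rad := by norm_num [Rad]
      have h7 := mul_le_mul_of_nonneg_left (hC i).1 hX.le
      exact mul_le_mul h7 (mul_le_mul ht.le h5 (Real.exp_pos _).le h6) (by positivity)
        (by positivity)
    calc ‖(kk P i : ℂ) + ((X * P.a i : ℝ) : ℂ) * (z ^ P.n * Complex.exp (evh (Phi P h) (z ^ P.n))) +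
          evh (qq P h v y i) (z ^ P.n)‖ ≤ ‖(kk P i : ℂ)‖ +
          ‖((X * P.a i : ℝ) : ℂ) * (z ^ P.n * Complex.exp (evh (Phi P h) (z ^ P.n)))‖ +
          ‖evh (qq P h v y i) (z ^ P.n)‖ := norm_add₃_le
      _ ≤ _ := by linarith

end Pool.Agent.U395.SC
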