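import Pool.Agent.U395.SC.FN

/-!
Project SC, parts FN1, FN5.
-/

set_option autoImplicit false

open Set Filter Topology

namespace Pool.Agent.U395.SC

open Pool.Agent.N229.SC

/-- the absolute value of `f` -/
theorem norm_fF {P : Par} (hρ : 0 < P.ρ) (h : W) (z : ℂ) :
    ‖fF P h z‖ = P.ρ * ‖z‖ * Real.exp ((evh (Phi P h) (z ^ P.n)).re / P.n) := by
  unfold fF
  rw [norm_mul, norm_mul, Complex.norm_real, Real.norm_of_nonneg hρ.le, Complex.norm_exp,
    Complex.div_natCast_re]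

/-- the real part of `Φ` on the unit circle -/
theorem re_Phi (hEH : S_EH) (hEV : S_EV) {P : Par} {h : W} (hc : conj h = h) {t : ℂ} (ht : ‖t‖ = 1) :
    (evh (Phi P h) t).re = P.nu * (ev h t).re := by
  obtain ⟨-, -, -, evhsmul, -⟩ := hEH wW wA_le_wW
  obtain ⟨-, -, -, -, -, -, -, -, -, -, evreal⟩ := hEV wW t ht
  have h1 : evh (Phi P h) t = P.nu * evh (hol h) t := evhsmul _ _ _
  rw [h1, Complex.re_ofReal_mul, (evreal h hc).1]

/-- `e = -ξ` on the unit circle -/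
theorem eF_eq (hEH : S_EH) (hEV : S_EV) {P : Par} (hρ : 0 < P.ρ) (hn : P.n ≠ 0) {h : W}
    (hc : conj h = h) {z : ℂ} (hz : ‖z‖ = 1) :
    ((eF P.ρ (fF P h) z : ℝ) : ℂ) = -ev (xi P h) (z ^ P.n) := by
  obtain ⟨t, ht⟩ : ∃ t : ℂ, t = z ^ P.n := ⟨_, rfl⟩
  have ht1 : ‖t‖ = 1 := by rw [ht, norm_pow, hz, one_pow]
  obtain ⟨-, evadd, evsmul, evmul, evmon, evevh, ⟨L, hL⟩, evconj, evinc, evex, evreal⟩ :=
    hEV wW t ht1
  have ev1 : ev (1 : W) t = 1 := by rw [one_def, evmon, zpow_zero]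
  have evsub : ∀ a b : W, ev (a - b) t = ev a t - ev b t := by
    intro a b
    rw [← hL, ← hL, ← hL, map_sub]
  obtain ⟨hre, him⟩ := evreal h hc
  have hY : ev (YY P h) t = ((‖fF P h z‖ ^ 2 / P.ρ ^ 2 : ℝ) : ℂ) := by
    have e1 : ev (YY P h) t = Complex.exp ((((2 / P.ρ) * (ev h t).re : ℝ)) : ℂ) := by
      unfold YY
      rw [evex, evsmul]
      congr 1
      rw [Complex.ofReal_mul]
      congr 1
      exact Complex.ext rfl (by rw [him]; simp)
    rw [e1, norm_fF hρ, hz, mul_one, ← Complex.ofReal_exp, ← ht, re_Phi hEH hEV hc ht1]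
    congr 1
    rw [mul_pow, ← Real.exp_nat_mul]
    have hn' : (P.n : ℝ) ≠ 0 := by exact_mod_cast hn
    unfold Par.nu
    field_simp
    congr 1
    push_cast
    ring
  rw [← ht]
  unfold xi
  rw [evsmul, evsub, ev1, hY]
  unfold eF
  push_cast
  have : (P.ρ : ℂ) ≠ 0 := by exact_mod_cast hρ.ne'
  field_simp
  ring

theorem proof_FN5 (hAB : S_AB) (hB1 : S_B1) (hB2 : S_B2) (hEH : S_EH) (hEV : S_EV) : S_FN5 := by
  intro P X h v y hF
  have hb := bas hAB hF
  have hG := hF.good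
  have hsol := hF.sol
  have hX := hF.X_pos
  have hX2 := hF.X_le
  norm_num at hX2
  have hDom : Dom X h v y := ⟨hsol.hc, hsol.hv, hsol.hy, hsol.nh, hsol.nv, hsol.ny⟩
  have hh : ‖h‖ ≤ 1 / 1000 := hb.nh'.trans (by norm_num)
  obtain ⟨⟨-, -, -, htau, -, hxi⟩, -, ⟨hPhi, -, hbeta, htau0, -⟩, -⟩ := hB1 P hG h hh
  obtain ⟨hqq, -, -, hQh, hq⟩ := hB2 P hG X h v y hX hF.X_le hDom
  have hq0 := (hq 5 5 (by norm_num) le_rfl (by norm_num) le_rfl hsol.nv hsol.ny).1
  obtain ⟨evn, evadd, evsmul, evmul, evmon, evevh, -, evconj, evinc, evex, evreal⟩ :=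
    hEV wW 1 norm_one
  have ev1 : ev (1 : W) 1 = 1 := by rw [one_def, evmon, zpow_zero]
  refine ⟨1, norm_one, ?_⟩
  obtain ⟨e, he⟩ : ∃ e : ℝ, e = eF P.ρ (fF P h) 1 := ⟨_, rfl⟩
  have he1 : |e| ≤ 1 / 1000 := by
    have h1 := eF_eq hEH hEV hb.rho hb.n0 hsol.hc (z := 1) norm_one
    rw [one_pow, ← he] at h1
    have h2 : |e| = ‖ev (xi P h) 1‖ := by
      rw [← norm_neg (ev (xi P h) 1), ← h1, Complex.norm_real, Real.norm_eq_abs]
    have h3 : ‖xi P h‖ ≤ ‖xi P h - h‖ + ‖h‖ := by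
      have := norm_add_le (xi P h - h) h
      rwa [sub_add_cancel] at this
    have h4 := hb.nh'
    rw [h2]
    have h5 := evn (xi P h)
    norm_num at h4
    nlinarith [norm_nonneg h]
  -- the values
  have htau1 : (fF P h 1 / P.ρ) ^ P.n = ev (tau P h) 1 := by
    rw [fF_pow hb.rho.ne' hb.n0, one_pow]
    unfold tau
    rw [evmul, evmon, evex, zpow_one, evevh (Phi P h) hPhi]
  have hQ : ∀ i, QF P X h v y (i + 1) 1 = ev (Qh P X h v y i) 1 := by
    intro i
    unfold Qh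
    rw [evadd, evadd, evsmul, evsmul, ev1, mul_one, ← htau1,
      evevh (qq P h v y (i + 1)) fun j hj => hqq (i + 1) j (by omega), QF_eq]
    simp only [one_pow]
    rfl
  have hQ0 : ‖QF P X h v y 0 1 - 1‖ ≤ 1 / 1000 := by
    have h1 : QF P X h v y 0 1 - 1 = ((2 / P.ρ * P.b 0 : ℝ) : ℂ) +
        ((X * P.a 0 : ℝ) : ℂ) * ev (tau P h) 1 + ev (qq P h v y 0) 1 := by
      rw [QF_eq]
      simp only [one_pow]
      rw [htau1, evevh (qq P h v y 0) fun j hj => hqq 0 j (by omega)]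
      have h2 : kk P 0 = 2 / P.ρ * P.b 0 + 1 := by
        show 2 / P.ρ * P.b 0 - P.b 1 = _
        rw [hG.b1]
        ring
      rw [h2]
      push_cast
      ring
    rw [h1]
    have h2 : ‖((2 / P.ρ * P.b 0 : ℝ) : ℂ)‖ ≤ 1 / 10000 := by
      rw [Complex.norm_real, Real.norm_eq_abs, abs_mul, abs_of_pos (by have := hb.rho; positivity)]
      have h3 := hG.b0
      have h4 : 2 / P.ρ ≤ 2 / 10000 := by
        have := hG.rho
        exact div_le_div_of_nonneg_left (by norm_num) (by norm_num) this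
      have h5 : 0 ≤ 2 / P.ρ := by have := hb.rho; positivity
      norm_num at h3
      nlinarith [abs_nonneg (P.b 0)]
    have h3 : ‖((X * P.a 0 : ℝ) : ℂ) * ev (tau P h) 1‖ ≤ 1 / 10000 := by
      rw [norm_mul, Complex.norm_real, Real.norm_eq_abs]
      have h4 := (evn (tau P h)).trans htau
      have h5 : 0 < P.a 0 := lt_of_lt_of_le (by norm_num) hG.a0
      have h6 := hG.a0'
      norm_num at h6 h4
      rw [abs_of_pos (by positivity)]
      have h7 : X * P.a 0 ≤ 1 / 100000 := by nlinarith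
      have h8 : 0 < X * P.a 0 := by positivity
      nlinarith [norm_nonneg (ev (tau P h) 1)]
    have h4 : ‖ev (qq P h v y 0) 1‖ ≤ 1 / 10000 := by
      refine (evn _).trans (hq0.trans ?_)
      nlinarith
    have h5 := norm_add₃_le (a := ((2 / P.ρ * P.b 0 : ℝ) : ℂ))
      (b := ((X * P.a 0 : ℝ) : ℂ) * ev (tau P h) 1) (c := ev (qq P h v y 0) 1)
    linarith
  have hQi : ∀ i, ‖QF P X h v y (i + 1) 1‖ ≤ 3 / 5 * (3 ^ i * i.factorial) := by
    intro i
    rw [hQ]
    exact (evn _).trans (hQh i)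
  -- the terms of the series
  have hterm : ∀ i : ℕ, ‖((e : ℂ) ^ (i + 1) / ((i + 1).factorial : ℂ)) * QF P X h v y (i + 1) 1‖ ≤
      1 / 1000 * (1 / 2) ^ i := by
    intro i
    rw [norm_mul, norm_div, norm_pow, Complex.norm_real, Real.norm_eq_abs, Complex.norm_natCast]
    have h1 := hQi i
    have h2 : (0 : ℝ) < (i.factorial : ℝ) := by exact_mod_cast Nat.factorial_pos i
    have h3 : ((i + 1).factorial : ℝ) = (i + 1) * i.factorial := by
      rw [Nat.factorial_succ]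
      push_cast
      ring
    have h4 : |e| ^ (i + 1) ≤ (1 / 1000) ^ (i + 1) := pow_le_pow_left₀ (abs_nonneg _) he1 _
    have h5 : (i.factorial : ℝ) ≤ ((i + 1).factorial : ℝ) := by
      rw [h3]
      nlinarith [Nat.cast_nonneg (α := ℝ) i]
    calc |e| ^ (i + 1) / ((i + 1).factorial : ℝ) * ‖QF P X h v y (i + 1) 1‖
        ≤ (1 / 1000) ^ (i + 1) / (i.factorial : ℝ) * (3 / 5 * (3 ^ i * i.factorial)) := by
          have h6 : |e| ^ (i + 1) / ((i + 1).factorial : ℝ) ≤ (1 / 1000) ^ (i + 1) / (i.factorial : ℝ) :=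
            div_le_div₀ (by positivity) h4 h2 h5
          exact mul_le_mul h6 h1 (norm_nonneg _) (by positivity)
      _ = 3 / 5000 * (3 / 1000) ^ i := by
          rw [pow_succ, div_pow 3 1000, div_pow 1 1000]
          field_simp
          ring
      _ ≤ 1 / 1000 * (1 / 2) ^ i := by
          have h6 : (3 / 1000 : ℝ) ^ i ≤ (1 / 2) ^ i := pow_le_pow_left₀ (by norm_num) (by norm_num) _
          have h7 : (0 : ℝ) ≤ (1 / 2) ^ i := by positivity
          nlinarith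
  have hgeo : HasSum (fun i : ℕ => (1 / 1000 : ℝ) * (1 / 2) ^ i) (1 / 1000 * 2) :=
    (hasSum_geometric_two).mul_left _
  have hsum1 : Summable fun i : ℕ =>
      ((e : ℂ) ^ (i + 1) / ((i + 1).factorial : ℂ)) * QF P X h v y (i + 1) 1 :=
    Summable.of_norm_bounded hgeo.summable hterm
  have hsum : Summable fun i : ℕ => ((e : ℂ) ^ i / (i.factorial : ℂ)) * QF P X h v y i 1 :=
    (summable_nat_add_iff 1).1 hsum1
  have htail : ‖∑' i : ℕ, ((e : ℂ) ^ (i + 1) / ((i + 1).factorial : ℂ)) *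
      QF P X h v y (i + 1) 1‖ ≤ 1 / 1000 * 2 := tsum_of_norm_bounded hgeo hterm
  have hPP : PP (QF P X h v y) e 1 = QF P X h v y 0 1 +
      ∑' i : ℕ, ((e : ℂ) ^ (i + 1) / ((i + 1).factorial : ℂ)) * QF P X h v y (i + 1) 1 := by
    unfold PP
    rw [hsum.tsum_eq_zero_add]
    simp
  have hU : UU P.ρ (fF P h) (QF P X h v y) 1 = (PP (QF P X h v y) e 1).re := by
    unfold UU
    rw [← he]
  rw [hU]
  intro h0
  have h1 : ‖PP (QF P X h v y) e 1 - 1‖ ≤ 1 / 100 := by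
    have h2 : PP (QF P X h v y) e 1 - 1 = (QF P X h v y 0 1 - 1) +
        ∑' i : ℕ, ((e : ℂ) ^ (i + 1) / ((i + 1).factorial : ℂ)) * QF P X h v y (i + 1) 1 := by
      rw [hPP]
      ring
    rw [h2]
    exact (norm_add_le _ _).trans (by linarith)
  have h2 := (Complex.abs_re_le_norm _).trans h1
  rw [Complex.sub_re, h0, Complex.one_re] at h2
  norm_num at h2

end Pool.Agent.U395.SC
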