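import Pool.Agent.U395.SC.TOP

/-!
Project SC, part LIP: the domain is a Lipschitz domain.
-/

set_option autoImplicit false

open Set Filter Topology MeasureTheory

namespace Pool.Agent.U395.SC

open Pool.Agent.N229.SC

theorem norm_sq_coord {z : ℂ} (hz : ‖z‖ = 1) (x : ℂ) :
    ‖x‖ ^ 2 = (@inner ℝ ℂ _ x (Complex.I * z)) ^ 2 + (@inner ℝ ℂ _ x (-z)) ^ 2 := by
  have h1 : z.re ^ 2 + z.im ^ 2 = 1 := by
    have := Complex.sq_norm z
    rw [hz, Complex.normSq_apply] at this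
    linarith
  rw [Complex.sq_norm, Complex.normSq_apply, Complex.inner, Complex.inner]
  simp only [Complex.mul_re, Complex.mul_im, Complex.conj_re, Complex.conj_im, Complex.I_re,
    Complex.I_im, Complex.neg_re, Complex.neg_im]
  linear_combination (-(x.re ^ 2) - x.im ^ 2) * h1

theorem coord_ext {z : ℂ} (hz : ‖z‖ = 1) {x y : ℂ} (h1 : (@inner ℝ ℂ _ x (Complex.I * z)) = (@inner ℝ ℂ _ y (Complex.I * z)))
    (h2 : (@inner ℝ ℂ _ x (-z)) = (@inner ℝ ℂ _ y (-z))) : x = y := by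
  have h3 := norm_sq_coord hz (x - y)
  rw [inner_sub_left, inner_sub_left, h1, h2, sub_self, sub_self] at h3
  have h4 : ‖x - y‖ = 0 := by nlinarith [norm_nonneg (x - y)]
  exact sub_eq_zero.1 (norm_eq_zero.1 h4)

/-- the norm of the preimage decreases in the directions of the cone -/
theorem decr {ρ r : ℝ} {f : ℂ → ℂ} (h : Conf ρ r f) {z : ℂ} (hz : ‖z‖ = 1) {a b : ℂ}
    (ha : a ∈ Metric.ball (0 : ℂ) r) (hb : b ∈ Metric.ball (0 : ℂ) r) (haz : ‖a - z‖ ≤ 1 / 10)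
    (hbz : ‖b - z‖ ≤ 1 / 10) (hab : a ≠ b)
    (hcone : |(@inner ℝ ℂ _ (f b - f a) (Complex.I * z))| ≤ (@inner ℝ ℂ _ (f b - f a) (-z))) : ‖b‖ < ‖a‖ := by
  have hρ := h.rho_pos
  have h1 := (proof_INJ ρ r f h).1 b hb a ha
  have h2 := lower h hb ha
  obtain ⟨D, hD⟩ : ∃ D, D = f b - f a := ⟨_, rfl⟩
  obtain ⟨w, hw⟩ : ∃ w, w = b - a := ⟨_, rfl⟩
  rw [← hD] at h1 h2 hcone
  rw [← hw] at h1 h2
  have hw0 : 0 < ‖w‖ := by
    rw [hw, norm_pos_iff]
    exact sub_ne_zero.2 hab.symm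
  have hw2 : ‖w‖ ≤ 1 / 5 := by
    have : w = (b - z) - (a - z) := by rw [hw]; ring
    rw [this]
    exact (norm_sub_le _ _).trans (by linarith)
  -- `q ≥ 0.6 ρ |w|`
  have hq0 : 0 ≤ (@inner ℝ ℂ _ D (-z)) := (abs_nonneg _).trans hcone
  have hq : 3 / 5 * ρ * ‖w‖ ≤ (@inner ℝ ℂ _ D (-z)) := by
    have h3 := norm_sq_coord hz D
    have h4 : (@inner ℝ ℂ _ D (Complex.I * z)) ^ 2 ≤ (@inner ℝ ℂ _ D (-z)) ^ 2 := by
      rw [← sq_abs]
      exact pow_le_pow_left₀ (abs_nonneg _) hcone 2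
    have h5 : ‖D‖ ^ 2 ≤ (3 / 2 * (@inner ℝ ℂ _ D (-z))) ^ 2 := by nlinarith
    have h6 : ‖D‖ ≤ 3 / 2 * (@inner ℝ ℂ _ D (-z)) := by
      exact (pow_le_pow_iff_left₀ (norm_nonneg _) (by linarith) two_ne_zero).1 h5
    linarith
  have hzD : (@inner ℝ ℂ _ z D) = -(@inner ℝ ℂ _ D (-z)) := by
    rw [inner_neg_right, neg_neg, real_inner_comm]
  have h7 : (@inner ℝ ℂ _ z ((ρ : ℂ) * w)) ≤ -(1 / 2 * ρ * ‖w‖) := by
    have h8 : (@inner ℝ ℂ _ z ((ρ : ℂ) * w)) = (@inner ℝ ℂ _ z D) - (@inner ℝ ℂ _ z (D - ρ * w)) := by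
      rw [inner_sub_right]; ring
    have h9 : |(@inner ℝ ℂ _ z (D - ρ * w))| ≤ ‖z‖ * ‖D - ρ * w‖ := abs_real_inner_le_norm _ _
    rw [hz, one_mul] at h9
    have h10 := neg_abs_le ((@inner ℝ ℂ _ z (D - ρ * w)))
    rw [h8, hzD]
    linarith
  have h8 : (@inner ℝ ℂ _ z ((ρ : ℂ) * w)) = ρ * (@inner ℝ ℂ _ z w) := by
    rw [← Complex.real_smul, real_inner_smul_right]
  rw [h8] at h7
  have h9 : (@inner ℝ ℂ _ z w) ≤ -(1 / 2 * ‖w‖) := by
    have : ρ * (@inner ℝ ℂ _ z w) ≤ ρ * -(1 / 2 * ‖w‖) := by linarith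
    exact le_of_mul_le_mul_left this hρ
  have h10 : (@inner ℝ ℂ _ a w) ≤ -(2 / 5 * ‖w‖) := by
    have h11 : (@inner ℝ ℂ _ a w) = (@inner ℝ ℂ _ z w) + (@inner ℝ ℂ _ (a - z) w) := by
      rw [inner_sub_left]; ring
    have h12 : |(@inner ℝ ℂ _ (a - z) w)| ≤ ‖a - z‖ * ‖w‖ := abs_real_inner_le_norm _ _
    have h13 := le_abs_self ((@inner ℝ ℂ _ (a - z) w))
    nlinarith
  have h11 : ‖b‖ ^ 2 = ‖a‖ ^ 2 + 2 * (@inner ℝ ℂ _ a w) + ‖w‖ ^ 2 := by
    have : b = a + w := by rw [hw]; ring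
    rw [this]
    exact norm_add_sq_real a w
  have h12 : ‖b‖ ^ 2 < ‖a‖ ^ 2 := by nlinarith
  exact lt_of_pow_lt_pow_left₀ 2 (norm_nonneg _) h12

theorem proof_LIP : S_LIP := by
  intro ρ r f h z hz
  have hρ := h.rho_pos
  have hr := h.r_gt
  have hIz : ‖Complex.I * z‖ = 1 := by rw [norm_mul, Complex.norm_I, hz, one_mul]
  have hzr : z ∈ Metric.ball (0 : ℂ) r := by rw [mem_ball_zero_iff, hz]; exact hr
  have hinj := (proof_INJ ρ r f h).2
  refine ⟨Complex.I * z, -z, hIz, by rw [norm_neg, hz], ?_, ?_⟩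
  · rw [Complex.inner]
    simp only [Complex.mul_re, Complex.mul_im, Complex.conj_re, Complex.conj_im, Complex.I_re,
      Complex.I_im, Complex.neg_re, Complex.neg_im, map_mul, Complex.conj_I]
    ring
  -- a small neighbourhood
  obtain ⟨δ, hδ, hδ1, hδr⟩ : ∃ δ : ℝ, 0 < δ ∧ δ ≤ 1 / 10 ∧ Metric.ball z δ ⊆ Metric.ball 0 r := by
    refine ⟨min (1 / 10) (r - 1), lt_min (by norm_num) (by linarith), min_le_left _ _, ?_⟩
    intro w hw
    rw [mem_ball_iff_norm] at hw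
    rw [mem_ball_zero_iff]
    have h1 : ‖w‖ ≤ ‖w - z‖ + ‖z‖ := by
      have := norm_add_le (w - z) z
      rwa [sub_add_cancel] at this
    have h2 := min_le_right (1 / 10) (r - 1)
    linarith
  obtain ⟨s, hs, hsub⟩ : ∃ s : ℝ, 0 < s ∧ Metric.ball (f z) s ⊆ f '' Metric.ball z δ := by
    have h1 : IsOpen (f '' Metric.ball z δ) := isOpen_image h Metric.isOpen_ball hδr
    exact Metric.isOpen_iff.1 h1 (f z) ⟨z, Metric.mem_ball_self hδ, rfl⟩
  -- the inverse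
  have hF : ∃ F : ℂ → ℂ, ∀ x ∈ Metric.ball (f z) s, F x ∈ Metric.ball z δ ∧ f (F x) = x := by
    have : ∀ x, ∃ y, x ∈ Metric.ball (f z) s → y ∈ Metric.ball z δ ∧ f y = x := by
      intro x
      by_cases hx : x ∈ Metric.ball (f z) s
      · obtain ⟨y, hy, hyx⟩ := hsub hx
        exact ⟨y, fun _ => ⟨hy, hyx⟩⟩
      · exact ⟨0, fun hx' => absurd hx' hx⟩
    choose F hF using this
    exact ⟨F, hF⟩
  obtain ⟨F, hF⟩ := hF
  have hFz : F (f z) = z :=
    hinj (hδr (hF _ (Metric.mem_ball_self hs)).1) hzr (hF _ (Metric.mem_ball_self hs)).2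
  have hmem : ∀ x ∈ Metric.ball (f z) s, (x ∈ Om f ↔ ‖F x‖ < 1) := by
    intro x hx
    constructor
    · rintro ⟨w, hw, hwx⟩
      have h1 : F x = w := by
        refine hinj (hδr (hF x hx).1) (Metric.ball_subset_ball hr.le hw) ?_
        rw [(hF x hx).2, hwx]
      rw [h1]
      rwa [mem_ball_zero_iff] at hw
    · intro h1
      exact ⟨F x, by rwa [mem_ball_zero_iff], (hF x hx).2⟩
  have hdecr : ∀ x ∈ Metric.ball (f z) s, ∀ y ∈ Metric.ball (f z) s, x ≠ y →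
      |(@inner ℝ ℂ _ (y - x) (Complex.I * z))| ≤ (@inner ℝ ℂ _ (y - x) (-z)) → ‖F y‖ < ‖F x‖ := by
    intro x hx y hy hxy hc
    have h1 := hF x hx
    have h2 := hF y hy
    refine decr h hz (hδr h1.1) (hδr h2.1) ?_ ?_ ?_ ?_
    · have := h1.1
      rw [mem_ball_iff_norm] at this
      linarith
    · have := h2.1
      rw [mem_ball_iff_norm] at this
      linarith
    · intro he
      apply hxy
      rw [← h1.2, ← h2.2, he]
    · rw [h1.2, h2.2]
      exact hc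
  have hFc : ContinuousOn F (Metric.ball (f z) s) := by
    refine LipschitzOnWith.continuousOn (K := Real.toNNReal (9 / 10 * ρ)⁻¹) ?_
    refine LipschitzOnWith.of_dist_le_mul fun x hx y hy => ?_
    rw [Real.coe_toNNReal _ (by positivity), dist_eq_norm, dist_eq_norm]
    have h1 := lower h (hδr (hF x hx).1) (hδr (hF y hy).1)
    rw [(hF x hx).2, (hF y hy).2] at h1
    rw [inv_mul_eq_div, le_div_iff₀ (by positivity)]
    linarith
  -- the points of the boundary form a Lipschitz graph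
  obtain ⟨G, hG⟩ : ∃ G : Set ℂ, G = {x | x ∈ Metric.ball (f z) s ∧ ‖F x‖ = 1} := ⟨_, rfl⟩
  have hlip : ∀ x ∈ G, ∀ y ∈ G, |(@inner ℝ ℂ _ y (-z)) - (@inner ℝ ℂ _ x (-z))| ≤ |(@inner ℝ ℂ _ y (Complex.I * z)) - (@inner ℝ ℂ _ x (Complex.I * z))| := by
    intro x hx y hy
    rw [hG] at hx hy
    by_cases hxy : x = y
    · rw [hxy]; simp
    by_contra hlt
    rw [not_le] at hlt
    rcases le_total 0 ((@inner ℝ ℂ _ y (-z)) - (@inner ℝ ℂ _ x (-z))) with h0 | h0
    · rw [abs_of_nonneg h0] at hlt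
      have := hdecr x hx.1 y hy.1 hxy (by
        rw [inner_sub_left, inner_sub_left]
        exact hlt.le)
      rw [hx.2, hy.2] at this
      exact lt_irrefl _ this
    · rw [abs_of_nonpos h0, abs_sub_comm] at hlt
      have := hdecr y hy.1 x hx.1 (Ne.symm hxy) (by
        rw [inner_sub_left, inner_sub_left]
        linarith)
      rw [hx.2, hy.2] at this
      exact lt_irrefl _ this
  obtain ⟨γ, hγ, hγG⟩ : ∃ γ : ℝ → ℝ, LipschitzWith 1 γ ∧
      ∀ x ∈ G, γ (@inner ℝ ℂ _ x (Complex.I * z)) = (@inner ℝ ℂ _ x (-z)) := by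
    obtain ⟨T, hT⟩ : ∃ T : Set ℝ, T = (fun x : ℂ => (@inner ℝ ℂ _ x (Complex.I * z))) '' G := ⟨_, rfl⟩
    have h1 : ∀ t : ℝ, ∃ u : ℝ, t ∈ T → ∃ x ∈ G, (@inner ℝ ℂ _ x (Complex.I * z)) = t ∧ (@inner ℝ ℂ _ x (-z)) = u := by
      intro t
      by_cases ht : t ∈ T
      · have ht' := ht
        rw [hT] at ht'
        obtain ⟨x, hx, hxt⟩ := ht'
        exact ⟨(@inner ℝ ℂ _ x (-z)), fun _ => ⟨x, hx, hxt, rfl⟩⟩
      · exact ⟨0, fun h => absurd h ht⟩
    choose γ0 hγ0 using h1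
    have h2 : LipschitzOnWith 1 γ0 T := by
      refine LipschitzOnWith.of_dist_le_mul fun t ht t' ht' => ?_
      obtain ⟨x, hx, h3, h4⟩ := hγ0 t ht
      obtain ⟨y, hy, h5, h6⟩ := hγ0 t' ht'
      rw [NNReal.coe_one, one_mul, Real.dist_eq, Real.dist_eq, ← h4, ← h6, ← h3, ← h5]
      exact hlip y hy x hx
    obtain ⟨γ, hγ, hγe⟩ := h2.extend_real
    refine ⟨γ, hγ, fun x hx => ?_⟩
    have ht : (@inner ℝ ℂ _ x (Complex.I * z)) ∈ T := by
      rw [hT]
      exact ⟨x, hx, rfl⟩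
    rw [← hγe ht]
    obtain ⟨y, hy, h3, h4⟩ := hγ0 _ ht
    have h5 := hlip x hx y hy
    rw [h3, sub_self, abs_zero] at h5
    have h6 := abs_nonpos_iff.1 h5
    rw [← h4]
    linarith
  refine ⟨s / 2, by positivity, 1, γ, hγ, ?_⟩
  intro x hx
  have hxs : x ∈ Metric.ball (f z) s := Metric.ball_subset_ball (by linarith) hx
  rw [hmem x hxs]
  -- the vertical line through `x`
  obtain ⟨t0, ht0⟩ : ∃ t0, t0 = (@inner ℝ ℂ _ (f z) (Complex.I * z)) := ⟨_, rfl⟩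
  obtain ⟨u0, hu0⟩ : ∃ u0, u0 = (@inner ℝ ℂ _ (f z) (-z)) := ⟨_, rfl⟩
  obtain ⟨t, ht⟩ : ∃ t, t = (@inner ℝ ℂ _ x (Complex.I * z)) := ⟨_, rfl⟩
  obtain ⟨u, hu⟩ : ∃ u, u = (@inner ℝ ℂ _ x (-z)) := ⟨_, rfl⟩
  rw [← ht, ← hu]
  have hin1 : (@inner ℝ ℂ _ (Complex.I * z) (Complex.I * z)) = 1 := by
    rw [real_inner_self_eq_norm_sq, hIz, one_pow]
  have hin2 : (@inner ℝ ℂ _ (-z) (-z)) = 1 := by
    rw [real_inner_self_eq_norm_sq, norm_neg, hz, one_pow]
  have hin3 : (@inner ℝ ℂ _ (Complex.I * z) (-z)) = 0 := by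
    rw [Complex.inner]
    simp only [Complex.mul_re, Complex.mul_im, Complex.conj_re, Complex.conj_im, Complex.I_re,
      Complex.I_im, Complex.neg_re, Complex.neg_im, map_mul, Complex.conj_I]
    ring
  have hin4 : (@inner ℝ ℂ _ (-z) (Complex.I * z)) = 0 := by rw [real_inner_comm]; exact hin3
  obtain ⟨P, hP⟩ : ∃ P : ℝ → ℂ, P = fun v => t • (Complex.I * z) + v • (-z) := ⟨_, rfl⟩
  have hPe : ∀ v, (@inner ℝ ℂ _ (P v) (Complex.I * z)) = t := by
    intro v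
    rw [hP]
    simp only
    rw [inner_add_left, real_inner_smul_left, real_inner_smul_left, hin1, hin4]
    ring
  have hPg : ∀ v, (@inner ℝ ℂ _ (P v) (-z)) = v := by
    intro v
    rw [hP]
    simp only
    rw [inner_add_left, real_inner_smul_left, real_inner_smul_left, hin2, hin3]
    ring
  have hPx : P u = x := coord_ext hz ((hPe u).trans ht) ((hPg u).trans hu)
  have hPc : Continuous P := by
    rw [hP]
    fun_prop
  have htt : |t - t0| < s / 2 := by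
    have h1 : |(@inner ℝ ℂ _ (x - f z) (Complex.I * z))| ≤ ‖x - f z‖ * ‖Complex.I * z‖ := abs_real_inner_le_norm _ _
    rw [inner_sub_left, ← ht, ← ht0, hIz, mul_one] at h1
    rw [mem_ball_iff_norm] at hx
    linarith
  have huu : |u - u0| < s / 2 := by
    have h1 : |(@inner ℝ ℂ _ (x - f z) (-z))| ≤ ‖x - f z‖ * ‖-z‖ := abs_real_inner_le_norm _ _
    rw [inner_sub_left, ← hu, ← hu0, norm_neg, hz, mul_one] at h1
    rw [mem_ball_iff_norm] at hx
    linarith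
  have hPin : ∀ v, |v - u0| ≤ s / 2 → P v ∈ Metric.ball (f z) s := by
    intro v hv
    rw [mem_ball_iff_norm]
    have h1 := norm_sq_coord hz (P v - f z)
    rw [inner_sub_left, inner_sub_left, hPe, hPg, ← ht0, ← hu0] at h1
    have h2 : (t - t0) ^ 2 ≤ (s / 2) ^ 2 := by
      rw [← sq_abs]
      exact pow_le_pow_left₀ (abs_nonneg _) htt.le 2
    have h3 : (v - u0) ^ 2 ≤ (s / 2) ^ 2 := by
      rw [← sq_abs]
      exact pow_le_pow_left₀ (abs_nonneg _) hv 2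
    have h4 : ‖P v - f z‖ ^ 2 < s ^ 2 := by nlinarith
    exact lt_of_pow_lt_pow_left₀ 2 hs.le h4
  have hfz : f z ∈ Metric.ball (f z) s := Metric.mem_ball_self hs
  -- the ends
  have hup : ‖F (P (u0 + s / 2))‖ < 1 := by
    have h1 : P (u0 + s / 2) ∈ Metric.ball (f z) s := hPin _ (by
      rw [add_sub_cancel_left, abs_of_pos (by positivity)])
    have h2 := hdecr (f z) hfz _ h1 (by
      intro he
      have := hPg (u0 + s / 2)
      rw [← he, ← hu0] at this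
      linarith) (by
      rw [inner_sub_left, inner_sub_left, hPe, hPg, ← ht0, ← hu0, add_sub_cancel_left]
      exact htt.le)
    rwa [hFz, hz] at h2
  have hdown : 1 < ‖F (P (u0 - s / 2))‖ := by
    have h1 : P (u0 - s / 2) ∈ Metric.ball (f z) s := hPin _ (by
      rw [sub_sub_cancel_left, abs_neg, abs_of_pos (by positivity)])
    have h2 := hdecr _ h1 (f z) hfz (by
      intro he
      have := hPg (u0 - s / 2)
      rw [he, ← hu0] at this
      linarith) (by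
      rw [inner_sub_left, inner_sub_left, hPe, hPg, ← ht0, ← hu0, sub_sub_cancel, abs_sub_comm]
      exact htt.le)
    rwa [hFz, hz] at h2
  -- the point of the graph
  obtain ⟨v, hv, hv1⟩ : ∃ v ∈ Icc (u0 - s / 2) (u0 + s / 2), ‖F (P v)‖ = 1 := by
    have h1 : ContinuousOn (fun v => ‖F (P v)‖) (Icc (u0 - s / 2) (u0 + s / 2)) := by
      refine ContinuousOn.norm (hFc.comp hPc.continuousOn ?_)
      intro v hv
      exact hPin v (abs_le.2 ⟨by linarith [hv.1], by linarith [hv.2]⟩)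
    have h2 := intermediate_value_Icc' (by linarith) h1
    obtain ⟨v, hv, hv1⟩ := h2 ⟨hup.le, hdown.le⟩
    exact ⟨v, hv, hv1⟩
  have hvin : P v ∈ Metric.ball (f z) s := hPin v (abs_le.2 ⟨by linarith [hv.1], by linarith [hv.2]⟩)
  have hγv : γ t = v := by
    have h1 := hγG (P v) (by rw [hG]; exact ⟨hvin, hv1⟩)
    rwa [hPe, hPg] at h1
  rw [hγv]
  constructor
  · intro h1
    by_contra hle
    rw [not_lt] at hle
    rcases eq_or_lt_of_le hle with he | hlt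
    · rw [← hPx, he, hv1] at h1
      exact lt_irrefl _ h1
    · have h2 := hdecr x hxs (P v) hvin (by
        intro he
        have := hPg v
        rw [← he, ← hu] at this
        linarith) (by
        rw [inner_sub_left, inner_sub_left, hPe, hPg, ← ht, ← hu, sub_self, abs_zero]
        linarith)
      rw [hv1] at h2
      linarith
  · intro hlt
    have h2 := hdecr (P v) hvin x hxs (by
      intro he
      have := hPg v
      rw [he, ← hu] at this
      linarith) (by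
      rw [inner_sub_left, inner_sub_left, hPe, hPg, ← ht, ← hu, sub_self, abs_zero]
      linarith)
    rwa [hv1] at h2

end Pool.Agent.U395.SC
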