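import Pool.Agent.U395.SC.TOP

/-!
Project SC, part NB: the domain is not a disc.
-/

set_option autoImplicit false

open Set Filter Topology MeasureTheory

namespace Pool.Agent.U395.SC

open Pool.Agent.N229.SC

theorem proof_NB : S_NB := by
  intro ρ r f h hn a s heq
  obtain ⟨ω, hω, hω1, hsym⟩ := hn.sym
  have hω0 : ω ≠ 0 := by
    intro h0
    rw [h0, norm_zero] at hω
    exact zero_ne_one hω
  have hs : 0 < s := by
    by_contra hs
    have h1 : Om f = ∅ := by
      rw [heq, Metric.ball_eq_empty]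
      exact not_lt.1 hs
    have h2 : f 0 ∈ Om f := ⟨0, by simp, rfl⟩
    rw [h1] at h2
    exact h2
  -- the rotation
  have hrot : ∀ x ∈ Metric.ball a s, ω * x ∈ Metric.ball a s := by
    rw [← heq]
    rintro _ ⟨z, hz, rfl⟩
    refine ⟨ω * z, ?_, ?_⟩
    · rw [mem_ball_zero_iff, norm_mul, hω, one_mul]
      rwa [mem_ball_zero_iff] at hz
    · exact hsym z (by rw [mem_ball_zero_iff] at hz; exact hz.le)
  have ha : ω * a = a := by
    by_contra hne
    obtain ⟨d, hd⟩ : ∃ d, d = ‖ω * a - a‖ := ⟨_, rfl⟩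
    have hd0 : 0 < d := by
      rw [hd, norm_pos_iff]
      exact sub_ne_zero.2 hne
    obtain ⟨t, ht0, hts, htd⟩ : ∃ t : ℝ, 0 ≤ t ∧ t < s ∧ s ≤ d + t := by
      by_cases hsd : s ≤ d
      · exact ⟨0, le_rfl, hs, by linarith⟩
      · exact ⟨s - d, by linarith, by linarith, by linarith⟩
    -- the point `y = ω a + t / d (ω a - a)`
    have h1 : ω⁻¹ * (ω * a + (t / d : ℝ) * (ω * a - a)) ∈ Metric.ball a s := by
      rw [mem_ball_iff_norm]
      have e : ω⁻¹ * (ω * a + (t / d : ℝ) * (ω * a - a)) - a =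
          ω⁻¹ * ((t / d : ℝ) * (ω * a - a)) := by
        field_simp
        ring
      rw [e, norm_mul, norm_inv, hω, inv_one, one_mul, norm_mul, Complex.norm_real,
        Real.norm_of_nonneg (by positivity), ← hd, div_mul_cancel₀ _ hd0.ne']
      exact hts
    have h2 := hrot _ h1
    rw [mul_inv_cancel_left₀ hω0, mem_ball_iff_norm] at h2
    have e : ω * a + (t / d : ℝ) * (ω * a - a) - a = ((1 + t / d : ℝ) : ℂ) * (ω * a - a) := by
      push_cast
      ring
    rw [e, norm_mul, Complex.norm_real, Real.norm_of_nonneg (by positivity), ← hd] at h2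
    have e2 : (1 + t / d) * d = d + t := by
      field_simp
    rw [e2] at h2
    linarith
  have ha0 : a = 0 := by
    have h1 : (ω - 1) * a = 0 := by
      rw [sub_mul, one_mul, ha, sub_self]
    rcases mul_eq_zero.1 h1 with h2 | h2
    · exact absurd (sub_eq_zero.1 h2) hω1
    · exact h2
  have hfr : ∀ z : ℂ, ‖z‖ = 1 → ‖f z‖ = s := by
    intro z hz
    have h1 : f z ∈ frontier (Om f) := by
      rw [frontier_Om h]
      exact ⟨z, by rwa [mem_sphere_zero_iff_norm], rfl⟩
    rw [heq, ha0, frontier_ball _ hs.ne', mem_sphere_zero_iff_norm] at h1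
    exact h1
  obtain ⟨z₁, z₂, h1, h2, h3⟩ := hn.nc
  exact h3 ((hfr z₁ h1).trans (hfr z₂ h2).symm)

end Pool.Agent.U395.SC
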