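import Pool.Agent.N229.SC.A1
import Pool.Agent.N229.SC.A2
import Pool.Agent.N229.SC.A3
import Pool.Agent.N229.SC.AB
import Pool.Agent.N229.SC.B1
import Pool.Agent.N229.SC.B2
import Pool.Agent.N229.SC.B3
import Pool.Agent.N229.SC.SELF
import Pool.Agent.N229.SC.CTR
import Pool.Agent.N229.SC.LX
import Pool.Agent.N229.SC.FIX
import Pool.Agent.N229.SC.HG
import Pool.Agent.N229.SC.VG
import Pool.Agent.N229.SC.YG
import Pool.Agent.N229.SC.RV
import Pool.Agent.N229.SC.GG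
import Pool.Agent.N229.SC.SGN
import Pool.Agent.N229.SC.N1
import Pool.Agent.N229.SC.N2
import Pool.Agent.N229.SC.N3
import Pool.Agent.N229.SC.NUM
import Pool.Agent.N229.SC.EV
import Pool.Agent.N229.SC.EH
import Pool.Agent.N229.SC.FN3
import Pool.Agent.N229.SC.FN4
import Pool.Agent.U924.SC.EXI
import Pool.Agent.U924.SC.FN1
import Pool.Agent.U924.SC.WK
import Pool.Agent.U924.SC.WK1
import Pool.Agent.U395.SC.FN
import Pool.Agent.U395.SC.FN5
import Pool.Agent.U395.SC.TOP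
import Pool.Agent.U395.SC.NB
import Pool.Agent.U395.SC.LIP

/-!
Project SC: the parts put together. There is a bounded simply connected domain with Lipschitz
boundary which is not a disc and carries a solution of the overdetermined Neumann problem.
-/

set_option autoImplicit false

open Set Filter Topology MeasureTheory

namespace Pool.Agent.U395.SC

open Pool.Agent.N229.SC

/-- the functions `f`, `Q_i` -/
theorem exists_str : ∃ (ρ r : ℝ) (f : ℂ → ℂ) (Q : ℕ → ℂ → ℂ), Str ρ r f Q ∧ Nd f := by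
  have hA1 : S_A1 := proof_A1
  have hA2 : S_A2 := proof_A2 hA1
  have hA3 : S_A3 := proof_A3 hA1 hA2
  have hAB : S_AB := proof_AB
  have hB1 : S_B1 := proof_B1 hA1 hA2 hA3
  have hB2 : S_B2 := proof_B2 hA1 hA2 hA3 hAB hB1
  have hB3 : S_B3 := proof_B3 hA1 hA2 hA3 hAB hB1 hB2
  have hSELF : S_SELF := proof_SELF hA1 hA2 hA3 hAB hB1 hB2
  have hCTR : S_CTR := proof_CTR hA1 hA2 hA3 hAB hB1 hB2 hB3
  have hLX : S_LX := proof_LX hA1 hA2 hA3 hAB hB1 hB2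
  have hFIX : S_FIX := proof_FIX hA1 hA2 hSELF hCTR hLX
  have hHG : S_HG := proof_HG hA1 hA2 hA3 hAB hB1 hB2
  have hVG : S_VG := proof_VG hA1 hA2 hA3 hAB hB1 hB2
  have hYG : S_YG := proof_YG hA1 hA2 hA3 hAB hB1 hB2
  have hRV : S_RV := proof_RV hA1 hA2 hA3 hAB hB1 hB2
  have hGG : S_GG := proof_GG hA1 hA2 hA3 hAB hB1 hB2 hRV
  have hSGN : S_SGN := proof_SGN hA1 hA2 hAB hHG hVG hYG hRV hGG
  have hNUM : S_NUM := proof_NUM proof_N1 proof_N2 proof_N3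
  have hEV : S_EV := proof_EV hA1 hA2 hA3
  have hEH : S_EH := proof_EH hA1 hA2
  have hEXI : S_EXI := U924.SC.proof_EXI hA1 hA2 hFIX hSGN hHG
  have hFN1 : S_FN1 := U924.SC.proof_FN1 hAB hB1 hEH hEV
  have hFN2 : S_FN2 := proof_FN2 hA2 hAB hB2 hEH
  have hFN3 : S_FN3 := proof_FN3 hA1 hA2 hA3 hAB hB1 hB2 hEH
  have hFN4 : S_FN4 := proof_FN4 hA1 hA2 hA3 hAB hB1 hB2 hEH hEV
  have hFN5 : S_FN5 := proof_FN5 hAB hB1 hB2 hEH hEV
  obtain ⟨P, hP, hbd⟩ := hNUM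
  obtain ⟨X, h, v, y, hX, hX', hsol, hO, hcc⟩ := hEXI P hP
  have hF : Full P X h v y := ⟨hP, hbd, hX, hX', hsol, hO, hcc⟩
  obtain ⟨hconf, hnd⟩ := hFN1 P X h v y hF
  obtain ⟨hd, hb⟩ := hFN2 P X h v y hF
  exact ⟨P.ρ, rF P, fF P h, QF P X h v y,
    ⟨hconf, hd, hb, hFN3 P X h v y hF, hFN4 P X h v y hF, hFN5 P X h v y hF⟩, hnd⟩

/-- **The domain.** -/
theorem finalC (hPDE : S_PDE) : FinalC := by
  obtain ⟨ρ, r, f, Q, hS, hN⟩ := exists_str
  obtain ⟨r', c, U, S, hr', hr, hcl⟩ := hPDE ρ r f Q hS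
  have hc := hS.conf
  obtain ⟨t1, t2, t3, t4, t5, t6⟩ := proof_TOP ρ r f hc
  obtain ⟨w1, w2, w3⟩ := U924.SC.proof_WK1 ρ r r' c f U S hc hr' hr hcl
  refine ⟨Om f, t1, t2, t3, t4, t6, ?_, proof_NB ρ r f hc hN, 1, c, uF f U, GF f S, one_pos,
    w1, w2, U924.SC.proof_WK2 ρ r r' c f U S hc hr' hr hcl,
    U924.SC.proof_WK3 ρ r r' c f U S hc hr' hr hcl, w3⟩
  intro p hp
  rw [t5] at hp
  obtain ⟨z, hz, rfl⟩ := hp
  rw [mem_sphere_zero_iff_norm] at hz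
  exact proof_LIP ρ r f hc z hz

end Pool.Agent.U395.SC
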