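import Pool.Agent.N229.SC.INJ

/-!
Project SC (plan and first half by helper229's team), part TOP: topology of the domain.
-/

set_option autoImplicit false

open Set Filter Topology MeasureTheory

namespace Pool.Agent.U395.SC

open Pool.Agent.N229.SC

section
variable {ρ r : ℝ} {f : ℂ → ℂ}

theorem lower (h : Conf ρ r f) {z w : ℂ} (hz : z ∈ Metric.ball (0 : ℂ) r)
    (hw : w ∈ Metric.ball (0 : ℂ) r) : 9 / 10 * ρ * ‖z - w‖ ≤ ‖f z - f w‖ := by
  have h1 := (proof_INJ ρ r f h).1 z hz w hw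
  have h2 : ‖(ρ : ℂ) * (z - w)‖ = ρ * ‖z - w‖ := by
    rw [norm_mul, Complex.norm_real, Real.norm_of_nonneg h.rho_pos.le]
  have h3 : ‖(ρ : ℂ) * (z - w)‖ ≤ ‖f z - f w‖ + ‖f z - f w - ρ * (z - w)‖ := by
    have : (ρ : ℂ) * (z - w) = (f z - f w) - (f z - f w - ρ * (z - w)) := by ring
    conv_lhs => rw [this]
    exact norm_sub_le _ _
  rw [h2] at h3
  linarith

theorem ball_sub (h : Conf ρ r f) : Metric.closedBall (0 : ℂ) 1 ⊆ Metric.ball (0 : ℂ) r :=
  Metric.closedBall_subset_ball h.r_gt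

theorem cont (h : Conf ρ r f) : ContinuousOn f (Metric.ball 0 r) := h.f_diff.continuousOn

theorem deriv_ne (h : Conf ρ r f) {z : ℂ} (hz : z ∈ Metric.ball (0 : ℂ) r) : deriv f z ≠ 0 := by
  intro h0
  have h1 := h.f_der z hz
  rw [h0, zero_sub, norm_neg, Complex.norm_real, Real.norm_of_nonneg h.rho_pos.le] at h1
  have := h.rho_pos
  linarith

theorem map_nhds (h : Conf ρ r f) {z : ℂ} (hz : z ∈ Metric.ball (0 : ℂ) r) :
    Filter.map f (𝓝 z) = 𝓝 (f z) := by
  have h1 : HasStrictDerivAt f (deriv f z) z := by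
    have h2 : AnalyticAt ℂ f z := h.f_diff.analyticAt (Metric.isOpen_ball.mem_nhds hz)
    exact h2.hasStrictDerivAt
  exact h1.map_nhds_eq (deriv_ne h hz)

theorem isOpen_image (h : Conf ρ r f) {s : Set ℂ} (hs : IsOpen s) (hsr : s ⊆ Metric.ball 0 r) :
    IsOpen (f '' s) := by
  rw [isOpen_iff_mem_nhds]
  rintro _ ⟨z, hz, rfl⟩
  rw [← map_nhds h (hsr hz)]
  exact Filter.image_mem_map (hs.mem_nhds hz)

theorem emb (h : Conf ρ r f) {s : Set ℂ} (hsr : s ⊆ Metric.ball 0 r) :
    IsEmbedding (fun z : s => f z) := by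
  have hc : Continuous (fun z : s => f z) := ((cont h).mono hsr).domRestrict
  have hρ := h.rho_pos
  have ha : AntilipschitzWith (Real.toNNReal (9 / 10 * ρ)⁻¹) (fun z : s => f z) := by
    refine AntilipschitzWith.of_le_mul_dist fun z w => ?_
    rw [Real.coe_toNNReal _ (by positivity), Subtype.dist_eq, dist_eq_norm, dist_eq_norm]
    have h1 := lower h (hsr z.2) (hsr w.2)
    rw [inv_mul_eq_div, le_div_iff₀ (by positivity)]
    linarith
  have hl : LipschitzWith (Real.toNNReal (11 / 10 * ρ)) (fun z : s => f z) := by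
    refine LipschitzWith.of_dist_le_mul fun z w => ?_
    rw [Real.coe_toNNReal _ (by positivity), Subtype.dist_eq, dist_eq_norm, dist_eq_norm]
    have h1 := (proof_INJ ρ r f h).1 z (hsr z.2) w (hsr w.2)
    have h2 : ‖(ρ : ℂ) * ((z : ℂ) - w)‖ = ρ * ‖(z : ℂ) - w‖ := by
      rw [norm_mul, Complex.norm_real, Real.norm_of_nonneg h.rho_pos.le]
    have h3 : ‖f z - f w‖ ≤ ‖(ρ : ℂ) * ((z : ℂ) - w)‖ + ‖f z - f w - ρ * ((z : ℂ) - w)‖ := by
      have : f z - f w = (ρ : ℂ) * ((z : ℂ) - w) + (f z - f w - ρ * ((z : ℂ) - w)) := by ring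
      conv_lhs => rw [this]
      exact norm_add_le _ _
    rw [h2] at h3
    linarith
  exact (ha.isUniformEmbedding hl.uniformContinuous).isEmbedding

/-- the homeomorphism onto the image -/
noncomputable def homeo (h : Conf ρ r f) {s : Set ℂ} (hsr : s ⊆ Metric.ball 0 r) :
    s ≃ₜ (f '' s : Set ℂ) :=
  (emb h hsr).toHomeomorph.trans (Homeomorph.setCongr (by
    ext x
    simp))

theorem closure_Om (h : Conf ρ r f) : closure (Om f) = f '' Metric.closedBall 0 1 := by
  unfold Om
  apply Subset.antisymm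
  · apply closure_minimal (image_mono Metric.ball_subset_closedBall)
    exact ((isCompact_closedBall (0 : ℂ) 1).image_of_continuousOn
      ((cont h).mono (ball_sub h))).isClosed
  · have h1 : Metric.closedBall (0 : ℂ) 1 = closure (Metric.ball 0 1) :=
      (closure_ball (0 : ℂ) one_ne_zero).symm
    rw [h1]
    apply ContinuousOn.image_closure
    rw [← h1]
    exact (cont h).mono (ball_sub h)

theorem frontier_Om (h : Conf ρ r f) : frontier (Om f) = f '' Metric.sphere 0 1 := by
  have hball : Metric.ball (0 : ℂ) 1 ⊆ Metric.ball 0 r := Metric.ball_subset_ball h.r_gt.le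
  have ho : IsOpen (Om f) := isOpen_image h Metric.isOpen_ball hball
  rw [frontier, ho.interior_eq, closure_Om h]
  unfold Om
  have hinj := (proof_INJ ρ r f h).2
  ext x
  constructor
  · rintro ⟨⟨z, hz, rfl⟩, hx⟩
    refine ⟨z, ?_, rfl⟩
    rw [mem_sphere_zero_iff_norm]
    rw [mem_closedBall_zero_iff] at hz
    by_contra hne
    exact hx ⟨z, by rw [mem_ball_zero_iff]; exact lt_of_le_of_ne hz hne, rfl⟩
  · rintro ⟨z, hz, rfl⟩
    have hz1 : z ∈ Metric.closedBall (0 : ℂ) 1 := Metric.sphere_subset_closedBall hz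
    refine ⟨⟨z, hz1, rfl⟩, ?_⟩
    rintro ⟨w, hw, hwz⟩
    have := hinj (hball hw) (ball_sub h hz1) hwz
    rw [this, mem_ball_zero_iff] at hw
    rw [mem_sphere_zero_iff_norm] at hz
    linarith

end

theorem proof_TOP : S_TOP := by
  intro ρ r f h
  have hball : Metric.ball (0 : ℂ) 1 ⊆ Metric.ball 0 r := Metric.ball_subset_ball h.r_gt.le
  have hcl := ball_sub h
  refine ⟨isOpen_image h Metric.isOpen_ball hball, ?_, ?_, ?_, frontier_Om h, ?_⟩
  · exact ((isCompact_closedBall (0 : ℂ) 1).image_of_continuousOn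
      ((cont h).mono hcl)).isBounded.subset (image_mono Metric.ball_subset_closedBall)
  · exact (Metric.isConnected_ball one_pos).image f ((cont h).mono hball)
  · have h1 : ContractibleSpace (Metric.ball (0 : ℂ) 1) :=
      (convex_ball (0 : ℂ) 1).contractibleSpace ⟨0, by simp⟩
    have h2 : ContractibleSpace (Om f) :=
      (homeo h hball).symm.contractibleSpace
    infer_instance
  · rw [frontier_Om h]
    exact ⟨(homeo h (Metric.sphere_subset_closedBall.trans hcl)).symm⟩

end Pool.Agent.U395.SC
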